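import Pool.Agent.X225.Fct.Semi2

/-!
# Discrepancy of semi-random matrices

For `t ≥ 3 log (m + n)` and every matrix of probabilities with column sums at most `t` the random
matrix has discrepancy at most `K (√t + √(log (m + n)) (log t) ^ 2)` with probability at least
`1 - 1 / (m + n)`.
-/

set_option autoImplicit false
open Classical

namespace Pool.Agent.Results.MP_8e920f_co.SemiRandomBound

/-- The probability that the random matrix `A` with independent entries, `A i j` being `true` with
probability `P i j`, has the property `S`. -/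
noncomputable def prob {m n : ℕ} (P : Fin m → Fin n → ℝ)
    (S : (Fin m → Fin n → Bool) → Prop) : ℝ :=
  ∑ A : Fin m → Fin n → Bool, if S A then ∏ i, ∏ j, (if A i j then P i j else 1 - P i j) else 0

/-- `disc A > B`: for every colouring some row sum is larger than `B` in absolute value. -/
def DiscGT {m n : ℕ} (A : Fin m → Fin n → Bool) (B : ℝ) : Prop :=
  ∀ x : Fin n → Bool, ∃ i, B < |∑ j, (if A i j then (if x j then (1 : ℝ) else -1) else 0)|

/-- **Main result.** -/
theorem result (m n : ℕ) (hmn : 3 ≤ m + n) (t : ℝ) (ht : 3 * Real.log ((m : ℝ) + n) ≤ t)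
    (P : Fin m → Fin n → ℝ) (hP : ∀ i j, 0 ≤ P i j ∧ P i j ≤ 1) (hcol : ∀ j, ∑ i, P i j ≤ t) :
    prob P (fun A => DiscGT A (6000000000000 *
      (Real.sqrt t + Real.sqrt (Real.log ((m : ℝ) + n)) * (Real.log t) ^ 2))) ≤
      1 / ((m : ℝ) + n) := by
  have h := X225.Fct.semi_random2 m n hmn t ht P hP hcol
  refine le_trans (le_of_eq ?_) h
  unfold prob
  refine Finset.sum_congr rfl fun A _ => ?_
  unfold DiscGT
  congr

end Pool.Agent.Results.MP_8e920f_co.SemiRandomBound
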